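import Mathlib

set_option autoImplicit false

namespace Pool.Agent.Helper159

open scoped InnerProductSpace
open Polynomial

section alg

variable {H : Type*} [NormedAddCommGroup H] [InnerProductSpace ℂ H]
variable {ι : Type*} [LinearOrder ι]

/-- rank one operator sending `f` to `⟪u - w c, f⟫ • w c`. -/
noncomputable def rankR (w : ι → H) (u : H) (c : ι) : H →L[ℂ] H :=
  (innerSL ℂ (u - w c)).smulRight (w c)

@[simp] lemma rankR_apply (w : ι → H) (u : H) (c : ι) (f : H) :
    rankR w u c f = ⟪u - w c, f⟫_ℂ • w c := by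
  simp [rankR]

/-- orthogonal increments -/
structure Incr (w : ι → H) (u : H) : Prop where
  inj : Function.Injective w
  incr : ∀ s t, s ≤ t → ⟪w s, w t⟫_ℂ = ⟪w s, w s⟫_ℂ
  top : ∀ s, ⟪w s, u⟫_ℂ = ⟪w s, w s⟫_ℂ

variable {w : ι → H} {u : H}

lemma Incr.incr' (h : Incr w u) {s t : ι} (hst : s ≤ t) : ⟪w t, w s⟫_ℂ = ⟪w s, w s⟫_ℂ := by
  rw [← inner_conj_symm, h.incr s t hst, inner_conj_symm]

lemma Incr.top' (h : Incr w u) (s : ι) : ⟪u, w s⟫_ℂ = ⟪w s, w s⟫_ℂ := by
  rw [← inner_conj_symm, h.top s, inner_conj_symm]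

lemma Incr.inner_le (h : Incr w u) {c a : ι} (hac : a ≤ c) : ⟪u - w c, w a⟫_ℂ = 0 := by
  rw [inner_sub_left, h.top', h.incr' hac, sub_self]

lemma Incr.inner_lt (h : Incr w u) {c a : ι} (hca : c < a) : ⟪u - w c, w a⟫_ℂ ≠ 0 := by
  have h1 : ⟪u - w c, w a⟫_ℂ = ⟪w a - w c, w a - w c⟫_ℂ := by
    rw [inner_sub_left, h.top', h.incr c a hca.le, inner_sub_left, inner_sub_right,
      inner_sub_right, h.incr c a hca.le, h.incr' hca.le]
    ring
  rw [h1]
  intro h2
  rw [inner_self_eq_zero, sub_eq_zero] at h2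
  exact hca.ne (h.inj h2).symm

/-- finite combination of the rank one operators -/
noncomputable def TS (w : ι → H) (u : H) (S : Finset ι) (ε : ι → ℂ) : H →L[ℂ] H :=
  ∑ c ∈ S, ε c • rankR w u c

lemma TS_apply (S : Finset ι) (ε : ι → ℂ) (f : H) :
    TS w u S ε f = ∑ c ∈ S, (ε c * ⟪u - w c, f⟫_ℂ) • w c := by
  simp only [TS, sum_apply, smul_apply, rankR_apply, smul_smul]

lemma lemA (h : Incr w u) (S : Finset ι) (ε : ι → ℂ) (hε : ∀ c ∈ S, ε c ≠ 0)
    (V : Submodule ℂ H) (hV : ∀ x ∈ V, TS w u S ε x ∈ V) (n : ℕ) :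
    ∀ m ∈ S, (S.filter (· < m)).card = n → ∀ x : ι → ℂ, x m ≠ 0 →
      (∀ c ∈ S, m < c → x c = 0) → ∑ c ∈ S, x c • w c ∈ V → ∀ c ∈ S, c ≤ m → w c ∈ V := by
  induction n using Nat.strong_induction_on with
  | _ n ih =>
    intro m hm hcard x hxm hx hsum
    -- first all strictly smaller ones
    have key : ∀ c ∈ S, c < m → w c ∈ V := by
      by_cases hP : (S.filter (· < m)).Nonempty
      · set m' := (S.filter (· < m)).max' hP with hm'
        have hm'mem : m' ∈ S.filter (· < m) := Finset.max'_mem _ _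
        have hm'S : m' ∈ S := (Finset.mem_filter.1 hm'mem).1
        have hm'lt : m' < m := (Finset.mem_filter.1 hm'mem).2
        have hmax : ∀ c ∈ S, c < m → c ≤ m' := fun c hc hcm =>
          Finset.le_max' _ _ (Finset.mem_filter.2 ⟨hc, hcm⟩)
        have hlt : (S.filter (· < m')).card < n := by
          rw [← hcard]
          apply Finset.card_lt_card
          refine ⟨fun c hc => ?_, fun hsub => ?_⟩
          · rw [Finset.mem_filter] at hc ⊢
            exact ⟨hc.1, hc.2.trans hm'lt⟩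
          · have := hsub hm'mem
            rw [Finset.mem_filter] at this
            exact lt_irrefl _ this.2
        have hT := hV _ hsum
        rw [TS_apply] at hT
        have hcoef : ∀ c, ⟪u - w c, ∑ a ∈ S, x a • w a⟫_ℂ = ∑ a ∈ S, x a * ⟪u - w c, w a⟫_ℂ := by
          intro c
          rw [inner_sum]
          exact Finset.sum_congr rfl fun a _ => by rw [inner_smul_right]
        have hbig : ∀ c ∈ S, m' < c → ε c * ⟪u - w c, ∑ a ∈ S, x a • w a⟫_ℂ = 0 := by
          intro c hc hcm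
          have hmc : m ≤ c := by
            by_contra hcon
            exact absurd (hmax c hc (not_le.1 hcon)) (not_le.2 hcm)
          rw [hcoef, Finset.sum_eq_zero, mul_zero]
          intro a ha
          rcases lt_or_ge c a with hca | hac
          · rw [hx a ha (hmc.trans_lt hca), zero_mul]
          · rw [h.inner_le hac, mul_zero]
        have hlead : ε m' * ⟪u - w m', ∑ a ∈ S, x a • w a⟫_ℂ ≠ 0 := by
          rw [hcoef, Finset.sum_eq_single m]
          · exact mul_ne_zero (hε m' hm'S) (mul_ne_zero hxm (h.inner_lt hm'lt))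
          · intro a ha ham
            rcases lt_trichotomy a m with h1 | h1 | h1
            · rw [h.inner_le (hmax a ha h1), mul_zero]
            · exact absurd h1 ham
            · rw [hx a ha h1, zero_mul]
          · intro hmn
            exact absurd hm hmn
        intro c hc hcm
        exact ih _ hlt m' hm'S rfl (fun c => ε c * ⟪u - w c, ∑ a ∈ S, x a • w a⟫_ℂ) hlead hbig
          hT c hc (hmax c hc hcm)
      · intro c hc hcm
        exact absurd ⟨c, Finset.mem_filter.2 ⟨hc, hcm⟩⟩ hP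
    have hmV : w m ∈ V := by
      have h1 : ∑ c ∈ S, x c • w c = x m • w m + ∑ c ∈ S.erase m, x c • w c :=
        (Finset.add_sum_erase S _ hm).symm
      have h2 : ∑ c ∈ S.erase m, x c • w c ∈ V := by
        refine Submodule.sum_mem _ fun c hc => ?_
        rw [Finset.mem_erase] at hc
        rcases lt_trichotomy c m with h1 | h1 | h1
        · exact V.smul_mem _ (key c hc.2 h1)
        · exact absurd h1 hc.1
        · rw [hx c hc.2 h1, zero_smul]; exact V.zero_mem
      have h3 : x m • w m ∈ V := by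
        have := V.sub_mem hsum h2
        rwa [h1, add_sub_cancel_right] at this
      exact (V.smul_mem_iff hxm).1 h3
    intro c hc hcm
    rcases hcm.lt_or_eq with h1 | h1
    · exact key c hc h1
    · rw [h1]; exact hmV

lemma lemB (h : Incr w u) (S : Finset ι) (ε : ι → ℂ) (hε : ∀ c ∈ S, ε c ≠ 0)
    {c c' : ι} (hc : c ∈ S) (hc' : c' ∈ S) (hcc : c ≤ c') (a : ι → ℂ) (ha : a c' ≠ 0) :
    ∃ p : ℂ[X], aeval (TS w u S ε) p (∑ i ∈ S, (ε i * a i) • w i) = w c := by
  set x0 := ∑ i ∈ S, (ε i * a i) • w i with hx0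
  let L : ℂ[X] →ₗ[ℂ] H :=
    { toFun := fun p => aeval (TS w u S ε) p x0
      map_add' := fun p q => by simp
      map_smul' := fun r p => by simp }
  have hne : (S.filter (fun i => a i ≠ 0)).Nonempty := ⟨c', Finset.mem_filter.2 ⟨hc', ha⟩⟩
  set m := (S.filter (fun i => a i ≠ 0)).max' hne with hm
  have hmmem : m ∈ S.filter (fun i => a i ≠ 0) := Finset.max'_mem _ _
  rw [Finset.mem_filter] at hmmem
  have hle : c' ≤ m := Finset.le_max' _ _ (Finset.mem_filter.2 ⟨hc', ha⟩)
  have := lemA h S ε hε (LinearMap.range L) (by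
    rintro x ⟨p, rfl⟩
    refine ⟨X * p, ?_⟩
    simp [L]) _ m hmmem.1 rfl (fun i => ε i * a i)
    (mul_ne_zero (hε m hmmem.1) hmmem.2) (by
      intro i hi hmi
      by_contra hcon
      have hai : a i ≠ 0 := fun h0 => hcon (by simp [h0])
      exact absurd (Finset.le_max' _ _ (Finset.mem_filter.2 ⟨hi, hai⟩)) (not_le.2 hmi))
    ⟨1, by simp [L, hx0]⟩ c hc (hcc.trans hle)
  obtain ⟨p, hp⟩ := this
  exact ⟨p, hp⟩

end alg


section top

variable {H : Type*} [NormedAddCommGroup H] [InnerProductSpace ℂ H]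
variable {ι : Type*} [LinearOrder ι] {w : ι → H} {u : H}

/-- The open condition used in the Baire argument. -/
def Good (w : ι → H) (u : H) (c c' : ι) (δ : ℝ) (T : H →L[ℂ] H) : Prop :=
  ∀ f : H, ‖f‖ ≤ 1 → δ ≤ ‖⟪u - w c', f⟫_ℂ‖ → ∃ p : ℂ[X], ‖aeval T p (T f) - w c‖ < δ

lemma lemC (h : Incr w u) (S : Finset ι) (ε : ι → ℂ) (hε : ∀ c ∈ S, ε c ≠ 0)
    {c c' : ι} (hc : c ∈ S) (hc' : c' ∈ S) (hcc : c ≤ c') {δ : ℝ} (hδ : 0 < δ) :
    ∃ ρ > 0, ∀ T : H →L[ℂ] H, ‖T - TS w u S ε‖ < ρ → Good w u c c' δ T := by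
  classical
  set T0 := TS w u S ε with hT0
  obtain ⟨C, hC⟩ : ∃ C : ℝ, ∀ i ∈ S, ‖u - w i‖ ≤ C :=
    ⟨∑ i ∈ S, ‖u - w i‖, fun i hi =>
      Finset.single_le_sum (f := fun i => ‖u - w i‖) (fun _ _ => norm_nonneg _) hi⟩
  let x : (S → ℂ) → H := fun a => ∑ i : S, (ε i * a i) • w i
  have hxc : Continuous x := by
    refine continuous_finsetSum _ fun i _ => ?_
    exact (continuous_const.mul (continuous_apply i)).smul continuous_const
  let K : Set (S → ℂ) := Metric.closedBall 0 (max C 0) ∩ {a | δ ≤ ‖a ⟨c', hc'⟩‖}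
  have hK : IsCompact K :=
    (isCompact_closedBall 0 _).inter_right
      (isClosed_le continuous_const (continuous_norm.comp (continuous_apply _)))
  let U : ℂ[X] → Set (S → ℂ) := fun p => {a | ‖aeval T0 p (x a) - w c‖ < δ / 2}
  have hUo : ∀ p, IsOpen (U p) := fun p =>
    isOpen_lt (continuous_norm.comp (((aeval T0 p).continuous.comp hxc).sub continuous_const))
      continuous_const
  have hcov : K ⊆ ⋃ p, U p := by
    rintro a ⟨-, ha⟩
    have ha0 : a ⟨c', hc'⟩ ≠ 0 := by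
      intro h0
      simp only [Set.mem_ofPred_eq, h0, norm_zero] at ha
      exact absurd ha (not_le.2 hδ)
    obtain ⟨p, hp⟩ := lemB h S ε hε hc hc' hcc (fun i => if hi : i ∈ S then a ⟨i, hi⟩ else 0)
      (by simpa [hc'] using ha0)
    refine Set.mem_iUnion.2 ⟨p, ?_⟩
    have hx : x a = ∑ i ∈ S, (ε i * (if hi : i ∈ S then a ⟨i, hi⟩ else 0)) • w i := by
      rw [← Finset.sum_coe_sort]
      refine Finset.sum_congr rfl fun i _ => ?_
      simp [i.2]
    show ‖aeval T0 p (x a) - w c‖ < δ / 2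
    rw [hx, hp, sub_self, norm_zero]
    positivity
  obtain ⟨t, ht⟩ := hK.elim_finite_subcover U hUo hcov
  have hcont : ∀ p : ℂ[X], Continuous fun T : H →L[ℂ] H => aeval T p * T := fun p =>
    (p.continuous_aeval).mul continuous_id
  have hev : ∀ᶠ T in nhds T0, ∀ p ∈ t, ‖aeval T p * T - aeval T0 p * T0‖ < δ / 2 := by
    rw [Filter.eventually_all_finset]
    intro p _
    have h1 : Filter.Tendsto (fun T : H →L[ℂ] H => ‖aeval T p * T - aeval T0 p * T0‖) (nhds T0)
        (nhds 0) := by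
      have h2 := (((hcont p).sub continuous_const).norm : Continuous fun T : H →L[ℂ] H =>
        ‖aeval T p * T - aeval T0 p * T0‖).tendsto T0
      simpa using h2
    exact h1.eventually (gt_mem_nhds (by positivity))
  obtain ⟨ρ, hρ, hball⟩ := Metric.eventually_nhds_iff.1 hev
  refine ⟨ρ, hρ, fun T hT f hf hcf => ?_⟩
  have hT' := hball (y := T) (by rwa [dist_eq_norm])
  let a : S → ℂ := fun i => ⟪u - w i, f⟫_ℂ
  have haK : a ∈ K := by
    refine ⟨?_, hcf⟩
    rw [mem_closedBall_zero_iff, pi_norm_le_iff_of_nonneg (le_max_right _ _)]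
    intro i
    refine (norm_inner_le_norm _ _).trans ?_
    calc ‖u - w i‖ * ‖f‖ ≤ ‖u - w i‖ * 1 := by gcongr
      _ ≤ max C 0 := by rw [mul_one]; exact (hC i i.2).trans (le_max_left _ _)
  obtain ⟨p, hpt, hp⟩ : ∃ p ∈ t, a ∈ U p := by
    have := ht haK
    simpa using this
  refine ⟨p, ?_⟩
  have hxa : T0 f = x a := by
    rw [hT0, TS_apply, ← Finset.sum_coe_sort]
  have h1 : aeval T p (T f) - w c =
      (aeval T p * T - aeval T0 p * T0) f + (aeval T0 p (x a) - w c) := by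
    rw [← hxa]
    simp
  rw [h1]
  calc _ ≤ ‖(aeval T p * T - aeval T0 p * T0) f‖ + ‖aeval T0 p (x a) - w c‖ := norm_add_le _ _
    _ ≤ ‖aeval T p * T - aeval T0 p * T0‖ * ‖f‖ + ‖aeval T0 p (x a) - w c‖ := by
        gcongr; exact ContinuousLinearMap.le_opNorm _ _
    _ ≤ ‖aeval T p * T - aeval T0 p * T0‖ * 1 + ‖aeval T0 p (x a) - w c‖ := by gcongr
    _ < δ / 2 + δ / 2 := by
        rw [mul_one]
        exact add_lt_add (hT' p hpt) hp
    _ = δ := by ring

/-- closed span of the rank one operators -/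
noncomputable def opAlg (w : ι → H) (u : H) : Submodule ℂ (H →L[ℂ] H) :=
  (Submodule.span ℂ (Set.range (rankR w u))).topologicalClosure

lemma TS_mem_span (S : Finset ι) (ε : ι → ℂ) :
    TS w u S ε ∈ Submodule.span ℂ (Set.range (rankR w u)) :=
  Submodule.sum_mem _ fun c _ => Submodule.smul_mem _ _ (Submodule.subset_span ⟨c, rfl⟩)

lemma TS_mem (S : Finset ι) (ε : ι → ℂ) : TS w u S ε ∈ opAlg w u :=
  Submodule.le_topologicalClosure _ (TS_mem_span S ε)

lemma dense_aux (c c' : ι) (T : H →L[ℂ] H) (hT : T ∈ opAlg w u) {r : ℝ} (hr : 0 < r) :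
    ∃ S : Finset ι, ∃ ε : ι → ℂ, c ∈ S ∧ c' ∈ S ∧ (∀ i ∈ S, ε i ≠ 0) ∧
      ‖TS w u S ε - T‖ < r := by
  classical
  have hT' : T ∈ closure (Submodule.span ℂ (Set.range (rankR w u)) : Set (H →L[ℂ] H)) := hT
  obtain ⟨T1, hT1, hd⟩ := Metric.mem_closure_iff.1 hT' (r / 2) (by positivity)
  obtain ⟨a, ha⟩ := (Finsupp.mem_span_range_iff_exists_finsupp).1 hT1
  let S : Finset ι := insert c (insert c' a.support)
  let B : H →L[ℂ] H := ∑ i ∈ S, (if a i = 0 then (1 : ℂ) else 0) • rankR w u i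
  obtain ⟨θ, hθ, hθB⟩ : ∃ θ : ℝ, 0 < θ ∧ θ * ‖B‖ < r / 2 := by
    refine ⟨r / 2 / (‖B‖ + 1), by positivity, ?_⟩
    have : 0 ≤ ‖B‖ := norm_nonneg _
    rw [div_mul_eq_mul_div, div_lt_iff₀ (by positivity)]
    nlinarith
  refine ⟨S, fun i => if a i = 0 then (θ : ℂ) else a i, Finset.mem_insert_self _ _,
    Finset.mem_insert_of_mem (Finset.mem_insert_self _ _), ?_, ?_⟩
  · intro i _
    by_cases h : a i = 0
    · simp [h, hθ.ne']
    · simp [h]
  · have h1 : T1 = ∑ i ∈ S, a i • rankR w u i := by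
      rw [← ha, Finsupp.sum]
      refine Finset.sum_subset ?_ ?_
      · intro i hi
        exact Finset.mem_insert_of_mem (Finset.mem_insert_of_mem hi)
      · intro i _ hi
        rw [Finsupp.notMem_support_iff.1 hi, zero_smul]
    have h2 : TS w u S (fun i => if a i = 0 then (θ : ℂ) else a i) = T1 + (θ : ℂ) • B := by
      rw [h1]
      show ∑ i ∈ S, (if a i = 0 then (θ : ℂ) else a i) • rankR w u i =
        ∑ i ∈ S, a i • rankR w u i +
          (θ : ℂ) • ∑ i ∈ S, (if a i = 0 then (1 : ℂ) else 0) • rankR w u i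
      rw [Finset.smul_sum, ← Finset.sum_add_distrib]
      refine Finset.sum_congr rfl fun i _ => ?_
      by_cases h : a i = 0
      · rw [if_pos h, if_pos h, h, zero_smul, zero_add, one_smul]
      · rw [if_neg h, if_neg h, zero_smul, smul_zero, add_zero]
    rw [h2]
    calc ‖T1 + (θ : ℂ) • B - T‖ = ‖(T1 - T) + (θ : ℂ) • B‖ := by congr 1; abel
      _ ≤ ‖T1 - T‖ + ‖(θ : ℂ) • B‖ := norm_add_le _ _
      _ < r / 2 + r / 2 := by
          refine add_lt_add ?_ ?_
          · rw [← dist_eq_norm, dist_comm]; exact hd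
          · rw [norm_smul, Complex.norm_real, Real.norm_of_nonneg hθ.le]; exact hθB
      _ = r := by ring

/-- **Core theorem.** -/
theorem core [CompleteSpace H] [Countable ι] (h : Incr w u) :
    ∃ T : H →L[ℂ] H, T ∈ opAlg w u ∧
      ∀ M : Submodule ℂ H, IsClosed (M : Set H) → (∀ x ∈ M, T x ∈ M) →
        ∀ f ∈ M, ∀ c c' : ι, c ≤ c' → ⟪u - w c', f⟫_ℂ ≠ 0 → w c ∈ M := by
  classical
  let A := opAlg w u
  have hAcl : IsClosed (A : Set (H →L[ℂ] H)) := Submodule.isClosed_topologicalClosure _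
  have : CompleteSpace A := hAcl.completeSpace_coe
  let J := {q : ι × ι // q.1 ≤ q.2} × ℕ
  let O : J → Set A := fun j =>
    interior {T : A | Good w u j.1.1.1 j.1.1.2 (1 / ((j.2 : ℝ) + 1)) (T : H →L[ℂ] H)}
  have hO : ∀ j, IsOpen (O j) := fun j => isOpen_interior
  have hD : ∀ j, Dense (O j) := by
    intro j
    rw [Metric.dense_iff]
    intro T r hr
    obtain ⟨S, ε, hcS, hcS', hε, hlt⟩ := dense_aux j.1.1.1 j.1.1.2 (T : H →L[ℂ] H) T.2 hr
    refine ⟨⟨TS w u S ε, TS_mem S ε⟩, ?_, ?_⟩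
    · rw [Metric.mem_ball, Subtype.dist_eq, dist_eq_norm]
      exact hlt
    · obtain ⟨ρ, hρ, hg⟩ := lemC h S ε hε hcS hcS' j.1.2 (δ := 1 / ((j.2 : ℝ) + 1))
        (by positivity)
      rw [mem_interior_iff_mem_nhds, Metric.mem_nhds_iff]
      refine ⟨ρ, hρ, fun T' hT' => hg T' ?_⟩
      rw [Metric.mem_ball, Subtype.dist_eq, dist_eq_norm] at hT'
      exact hT'
  obtain ⟨T, hT⟩ := (dense_iInter_of_isOpen hO hD).nonempty
  refine ⟨T, T.2, ?_⟩
  intro M hM hMT f hf c c' hcc hne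
  have hf0 : f ≠ 0 := by
    rintro rfl
    exact hne (inner_zero_right _)
  have hfn : 0 < ‖f‖ := norm_pos_iff.2 hf0
  let g : H := ((‖f‖ : ℂ)⁻¹) • f
  have hg : g ∈ M := M.smul_mem _ hf
  have hgn : ‖g‖ ≤ 1 := by
    simp only [g, norm_smul, norm_inv, Complex.norm_real, norm_norm]
    rw [inv_mul_cancel₀ hfn.ne']
  have hgne : 0 < ‖⟪u - w c', g⟫_ℂ‖ := by
    rw [norm_pos_iff, inner_smul_right]
    refine mul_ne_zero (inv_ne_zero ?_) hne
    exact_mod_cast hfn.ne'
  have hpoly : ∀ p : ℂ[X], ∀ x ∈ M, aeval (T : H →L[ℂ] H) p x ∈ M := by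
    intro p
    induction p using Polynomial.induction_on' with
    | add p q hp hq =>
      intro x hx
      rw [map_add]
      exact M.add_mem (hp x hx) (hq x hx)
    | monomial n a =>
      intro x hx
      rw [aeval_monomial]
      have hpow : ∀ n : ℕ, ((T : H →L[ℂ] H) ^ n) x ∈ M := by
        intro n
        induction n with
        | zero => simpa using hx
        | succ n ih =>
          rw [pow_succ']
          exact hMT _ ih
      show (algebraMap ℂ (H →L[ℂ] H) a * (T : H →L[ℂ] H) ^ n) x ∈ M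
      rw [← Algebra.smul_def]
      exact M.smul_mem _ (hpow n)
  rw [← SetLike.mem_coe, ← hM.closure_eq, Metric.mem_closure_iff]
  intro r hr
  obtain ⟨n, hn⟩ := exists_nat_one_div_lt (lt_min hr hgne)
  have hTn := interior_subset (Set.mem_iInter.1 hT ⟨⟨(c, c'), hcc⟩, n⟩)
  obtain ⟨p, hp⟩ := hTn g hgn (hn.le.trans (min_le_right _ _))
  refine ⟨aeval (T : H →L[ℂ] H) p ((T : H →L[ℂ] H) g), hpoly p _ (hMT _ hg), ?_⟩
  rw [dist_comm, dist_eq_norm]
  exact hp.trans (hn.trans_le (min_le_left _ _))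

/-- every operator in the closed span leaves invariant the closed subspaces left invariant by
the rank one operators. -/
lemma opAlg_invariant {T : H →L[ℂ] H} (hT : T ∈ opAlg w u) (N : Submodule ℂ H)
    (hN : IsClosed (N : Set H)) (hinv : ∀ c, ∀ x ∈ N, rankR w u c x ∈ N) :
    ∀ x ∈ N, T x ∈ N := by
  intro x hx
  have hT' : T ∈ closure (Submodule.span ℂ (Set.range (rankR w u)) : Set (H →L[ℂ] H)) := hT
  let E : Submodule ℂ (H →L[ℂ] H) := N.comap (ContinuousLinearMap.apply ℂ H x).toLinearMap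
  have hE : IsClosed (E : Set (H →L[ℂ] H)) := hN.preimage (ContinuousLinearMap.apply ℂ H x).continuous
  have hle : Submodule.span ℂ (Set.range (rankR w u)) ≤ E := by
    rw [Submodule.span_le]
    rintro _ ⟨c, rfl⟩
    exact hinv c x hx
  have : T ∈ E := (closure_minimal hle hE) hT'
  exact this

end top

end Pool.Agent.Helper159
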