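import Mathlib
import Pool.Agent.Helper159.Core

set_option autoImplicit false

namespace Pool.Agent.Helper159

open scoped InnerProductSpace
open Filter Topology

section atomic

variable {Ω : Type*} [LinearOrder Ω] [Encodable Ω]

/-- summable positive weights -/
noncomputable def wt (r : Ω) : ℝ := (1 / 2 : ℝ) ^ Encodable.encode r

lemma wt_pos (r : Ω) : 0 < wt r := by unfold wt; positivity

open Classical in
lemma vec_mem (D : Set Ω) :
    Memℓp (E := fun _ : Ω => ℂ) (fun r => if r ∈ D then (wt r : ℂ) else 0) 2 := by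
  apply memℓp_gen
  have h1 : Summable fun r : Ω => wt r := summable_geometric_two_encode
  refine Summable.of_nonneg_of_le (fun r => by positivity) (fun r => ?_) h1
  have h2 : (0 : ℝ) ≤ wt r := (wt_pos r).le
  have h3 : wt r ≤ 1 := pow_le_one₀ (by norm_num) (by norm_num)
  have h4 : ‖(if r ∈ D then (wt r : ℂ) else 0)‖ ≤ wt r := by
    split_ifs
    · rw [Complex.norm_real, Real.norm_of_nonneg h2]
    · simpa using h2
  have h5 : (2 : ENNReal).toReal = ((2 : ℕ) : ℝ) := by norm_num
  rw [h5, Real.rpow_natCast]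
  calc _ ≤ wt r ^ 2 := by gcongr
    _ ≤ wt r := by nlinarith

open Classical in
/-- the vector with entries `wt r` on `D` -/
noncomputable def vec (D : Set Ω) : lp (fun _ : Ω => ℂ) 2 :=
  ⟨fun r => if r ∈ D then (wt r : ℂ) else 0, vec_mem D⟩

open Classical in
lemma vec_apply (D : Set Ω) (r : Ω) : vec D r = if r ∈ D then (wt r : ℂ) else 0 := rfl

lemma incr_vec : Incr (fun q : Ω => vec (Set.Iic q)) (vec Set.univ) where
  inj := by
    intro s t hst
    by_contra hne
    rcases lt_or_gt_of_ne hne with h | h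
    · have := congrArg (fun f : lp (fun _ : Ω => ℂ) 2 => f t) hst
      simp only [vec_apply, Set.mem_Iic, le_refl, if_true, if_neg (not_le.2 h)] at this
      exact (wt_pos t).ne' (by exact_mod_cast this.symm)
    · have := congrArg (fun f : lp (fun _ : Ω => ℂ) 2 => f s) hst
      simp only [vec_apply, Set.mem_Iic, le_refl, if_true, if_neg (not_le.2 h)] at this
      exact (wt_pos s).ne' (by exact_mod_cast this)
  incr := by
    intro s t hst
    rw [lp.inner_eq_tsum, lp.inner_eq_tsum]
    refine tsum_congr fun r => ?_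
    simp only [vec_apply, Set.mem_Iic]
    by_cases h : r ≤ s
    · rw [if_pos h, if_pos (h.trans hst)]
    · rw [if_neg h, inner_zero_left, inner_zero_left]
  top := by
    intro s
    rw [lp.inner_eq_tsum, lp.inner_eq_tsum]
    refine tsum_congr fun r => ?_
    simp only [vec_apply, Set.mem_Iic, Set.mem_univ, if_true]
    by_cases h : r ≤ s
    · rw [if_pos h]
    · rw [if_neg h, inner_zero_left, inner_zero_left]

/-- the increments at a point that is not minimal isolate the coordinate. -/
lemma tendsto_incr (q : Ω) (y : lp (fun _ : Ω => ℂ) 2) :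
    Tendsto (fun c : Set.Iio q => ⟪vec (Set.Iic q) - vec (Set.Iic (c : Ω)), y⟫_ℂ) atTop
      (𝓝 (⟪(wt q : ℂ), y q⟫_ℂ)) := by
  have h0 : ∀ c : Set.Iio q, ⟪vec (Set.Iic q) - vec (Set.Iic (c : Ω)), y⟫_ℂ =
      ∑' r, ⟪(vec (Set.Iic q) - vec (Set.Iic (c : Ω)) : lp (fun _ : Ω => ℂ) 2) r, y r⟫_ℂ :=
    fun c => lp.inner_eq_tsum _ _
  have h1 : ⟪(wt q : ℂ), y q⟫_ℂ = ∑' r, (if r = q then ⟪(wt q : ℂ), y q⟫_ℂ else 0) := by
    rw [tsum_ite_eq]
  simp only [h0]
  rw [h1]
  refine tendsto_tsum_of_dominated_convergence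
    (bound := fun r => ‖vec (Set.univ : Set Ω) r‖ * ‖y r‖) ?_ ?_ ?_
  · exact lp.summable_mul (by rw [Real.holderConjugate_iff]; norm_num) _ _
  · intro r
    rcases lt_trichotomy r q with h | h | h
    · have : ∀ᶠ c : Set.Iio q in atTop,
          ⟪(vec (Set.Iic q) - vec (Set.Iic (c : Ω)) : lp (fun _ : Ω => ℂ) 2) r, y r⟫_ℂ = 0 := by
        filter_upwards [eventually_ge_atTop (⟨r, h⟩ : Set.Iio q)] with c hc
        have hc' : r ≤ (c : Ω) := hc
        rw [lp.coeFn_sub, Pi.sub_apply, vec_apply, vec_apply, if_pos (by exact h.le),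
          if_pos (by exact hc'), sub_self, inner_zero_left]
      rw [if_neg h.ne]
      exact tendsto_const_nhds.congr' (by filter_upwards [this] with c hc using hc.symm)
    · subst h
      have : ∀ c : Set.Iio r,
          ⟪(vec (Set.Iic r) - vec (Set.Iic (c : Ω)) : lp (fun _ : Ω => ℂ) 2) r, y r⟫_ℂ =
            ⟪(wt r : ℂ), y r⟫_ℂ := by
        intro c
        have hc : (c : Ω) < r := c.2
        rw [lp.coeFn_sub, Pi.sub_apply, vec_apply, vec_apply, if_pos (by exact le_refl r),
          if_neg (by exact not_le.2 hc), sub_zero]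
      simp only [this, if_true]
      exact tendsto_const_nhds
    · have : ∀ c : Set.Iio q,
          ⟪(vec (Set.Iic q) - vec (Set.Iic (c : Ω)) : lp (fun _ : Ω => ℂ) 2) r, y r⟫_ℂ = 0 := by
        intro c
        have hc : (c : Ω) < q := c.2
        rw [lp.coeFn_sub, Pi.sub_apply, vec_apply, vec_apply, if_neg (by exact not_le.2 h),
          if_neg (by exact not_le.2 (hc.trans h)), sub_self, inner_zero_left]
      simp only [this, if_neg h.ne']
      exact tendsto_const_nhds
  · refine Eventually.of_forall fun c r => ?_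
    refine (norm_inner_le_norm _ _).trans ?_
    gcongr
    have hc : (c : Ω) < q := c.2
    rw [lp.coeFn_sub, Pi.sub_apply, vec_apply, vec_apply, vec_apply,
      if_pos (Set.mem_univ r)]
    by_cases h1 : r ≤ (c : Ω)
    · rw [if_pos (by exact h1.trans hc.le), if_pos (by exact h1), sub_self, norm_zero]
      exact norm_nonneg _
    · rw [if_neg (show ¬ r ∈ Set.Iic (c : Ω) from h1), sub_zero]
      split_ifs
      · exact le_refl _
      · rw [norm_zero]; exact norm_nonneg _

lemma inner_wt_eq_zero {q : Ω} {z : ℂ} (h : ⟪(wt q : ℂ), z⟫_ℂ = 0) : z = 0 := by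
  have h1 : (wt q : ℂ) ≠ 0 := by exact_mod_cast (wt_pos q).ne'
  rw [RCLike.inner_apply] at h
  rcases mul_eq_zero.1 h with h2 | h2
  · exact h2
  · exact absurd ((map_eq_zero _).1 h2) h1

lemma coord_zero (q : Ω) (y : lp (fun _ : Ω => ℂ) 2)
    (hy : ∀ p ≤ q, ⟪vec (Set.Iic p), y⟫_ℂ = 0) : y q = 0 := by
  by_cases hq : (Set.Iio q).Nonempty
  · have : Nonempty (Set.Iio q) := hq.to_subtype
    have h := tendsto_incr q y
    have h2 : ∀ c : Set.Iio q, ⟪vec (Set.Iic q) - vec (Set.Iic (c : Ω)), y⟫_ℂ = 0 := by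
      intro c
      have hc : (c : Ω) < q := c.2
      rw [inner_sub_left, hy q le_rfl, hy c hc.le, sub_zero]
    simp only [h2] at h
    exact inner_wt_eq_zero (tendsto_nhds_unique h tendsto_const_nhds)
  · have h := hy q le_rfl
    rw [lp.inner_eq_tsum, tsum_eq_single q] at h
    · rw [vec_apply, if_pos (by exact le_refl q)] at h
      exact inner_wt_eq_zero h
    · intro r hr
      have : ¬ r ≤ q := fun hle => hq ⟨r, lt_of_le_of_ne hle hr⟩
      rw [vec_apply, if_neg (by exact this), inner_zero_left]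

/-- For a countable linear order `Ω` there is an operator on `ℓ²(Ω)` whose closed invariant
subspaces are exactly the spaces of vectors supported in a lower set of `Ω`. -/
theorem lat_lowerSet :
    ∃ T : lp (fun _ : Ω => ℂ) 2 →L[ℂ] lp (fun _ : Ω => ℂ) 2,
      ∀ M : Submodule ℂ (lp (fun _ : Ω => ℂ) 2),
        (IsClosed (M : Set (lp (fun _ : Ω => ℂ) 2)) ∧ ∀ x ∈ M, T x ∈ M) ↔
          ∃ D : LowerSet Ω, ∀ f : lp (fun _ : Ω => ℂ) 2, f ∈ M ↔ ∀ q : Ω, q ∉ D → f q = 0 := by
  obtain ⟨T, hT, hcore⟩ := core (incr_vec (Ω := Ω))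
  refine ⟨T, fun M => ⟨?_, ?_⟩⟩
  · rintro ⟨hM, hinv⟩
    -- smaller indices of support points
    have hA : ∀ s : Ω, ∀ f ∈ M, f s ≠ 0 → ∀ p < s, vec (Set.Iic p) ∈ M := by
      intro s f hf hfs p hp
      by_contra hcon
      have hz : ∀ c, p ≤ c → ⟪vec Set.univ - vec (Set.Iic c), f⟫_ℂ = 0 := by
        intro c hc
        by_contra hne
        exact hcon (hcore M hM hinv f hf p c hc hne)
      have : Nonempty (Set.Iio s) := ⟨⟨p, hp⟩⟩
      have h := tendsto_incr s f
      have h2 : ∀ᶠ c : Set.Iio s in atTop, ⟪vec (Set.Iic s) - vec (Set.Iic (c : Ω)), f⟫_ℂ = 0 := by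
        filter_upwards [eventually_ge_atTop (⟨p, hp⟩ : Set.Iio s)] with c hc
        have hc' : p ≤ (c : Ω) := hc
        have e1 := hz s hp.le
        have e2 := hz c hc'
        rw [inner_sub_left] at e1 e2 ⊢
        rw [sub_eq_zero] at e1 e2
        rw [← e1, ← e2, sub_self]
      have h3 : Tendsto (fun c : Set.Iio s => ⟪vec (Set.Iic s) - vec (Set.Iic (c : Ω)), f⟫_ℂ)
          atTop (𝓝 0) :=
        tendsto_const_nhds.congr' (by filter_upwards [h2] with c hc using hc.symm)
      exact hfs (inner_wt_eq_zero (tendsto_nhds_unique h h3))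
    let D : LowerSet Ω :=
      { carrier := {q | ∃ s, q ≤ s ∧ ∃ f ∈ M, f s ≠ 0}
        lower' := by
          rintro a b hba ⟨s, hs, hf⟩
          exact ⟨s, hba.trans hs, hf⟩ }
    refine ⟨D, fun f => ⟨fun hf q hq => ?_, fun hf => ?_⟩⟩
    · by_contra hne
      exact hq ⟨q, le_rfl, f, hf, hne⟩
    · -- orthogonal complement argument
      have hMoo : Mᗮᗮ = M := by
        rw [Submodule.orthogonal_orthogonal_eq_closure]
        exact hM.submodule_topologicalClosure_eq
      rw [← hMoo, Submodule.mem_orthogonal]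
      intro y hy
      rw [Submodule.mem_orthogonal] at hy
      have hy0 : ∀ q s : Ω, q < s → (∃ g ∈ M, g s ≠ 0) → y q = 0 := by
        rintro q s hqs ⟨g, hg, hgs⟩
        refine coord_zero q y fun p hp => ?_
        exact hy _ (hA s g hg hgs p (hp.trans_lt hqs))
      have hyD : ∀ q ∈ D, y q = 0 := by
        rintro q ⟨s, hqs, g, hg, hgs⟩
        rcases hqs.lt_or_eq with hlt | rfl
        · exact hy0 q s hlt ⟨g, hg, hgs⟩
        · by_cases hbig : ∃ r, q < r ∧ ∃ g ∈ M, g r ≠ 0
          · obtain ⟨r, hr, hg'⟩ := hbig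
            exact hy0 q r hr hg'
          · push Not at hbig
            have h1 := hy g hg
            rw [lp.inner_eq_tsum, tsum_eq_single q] at h1
            · rw [RCLike.inner_apply] at h1
              rcases mul_eq_zero.1 h1 with h2 | h2
              · exact h2
              · exact absurd ((map_eq_zero _).1 h2) hgs
            · intro r hr
              rcases lt_or_gt_of_ne hr with h2 | h2
              · rw [hy0 r q h2 ⟨g, hg, hgs⟩, inner_zero_right]
              · rw [hbig r h2 g hg, inner_zero_left]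
      rw [lp.inner_eq_tsum]
      refine (tsum_congr fun r => ?_).trans tsum_zero
      by_cases hr : r ∈ D
      · rw [hyD r hr, inner_zero_left]
      · rw [hf r hr, inner_zero_right]
  · rintro ⟨D, hD⟩
    have hcl : IsClosed (M : Set (lp (fun _ : Ω => ℂ) 2)) := by
      have : (M : Set (lp (fun _ : Ω => ℂ) 2)) = ⋂ q : {q : Ω // q ∉ D}, {f | f q = 0} := by
        ext f
        simp only [SetLike.mem_coe, hD, Set.mem_iInter, Subtype.forall]
        rfl
      rw [this]
      refine isClosed_iInter fun q => ?_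
      exact isClosed_eq ((lp.lipschitzWith_one_eval 2 (q : Ω)).continuous) continuous_const
    refine ⟨hcl, opAlg_invariant hT M hcl fun c x hx => ?_⟩
    rw [rankR_apply]
    by_cases hc : c ∈ D
    · apply M.smul_mem
      rw [hD]
      intro q hq
      have : ¬ q ≤ c := fun h => hq (D.lower h hc)
      rw [vec_apply, if_neg (by exact this)]
    · have : ⟪vec (Set.univ : Set Ω) - vec (Set.Iic c), x⟫_ℂ = 0 := by
        rw [lp.inner_eq_tsum]
        refine (tsum_congr fun r => ?_).trans tsum_zero
        by_cases hr : r ∈ D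
        · have hrc : r ≤ c := by
            by_contra hcon
            exact hc (D.lower (not_le.1 hcon).le hr)
          rw [lp.coeFn_sub, Pi.sub_apply, vec_apply, vec_apply, if_pos (Set.mem_univ r),
            if_pos (by exact hrc), sub_self, inner_zero_left]
        · rw [(hD x).1 hx r hr, inner_zero_right]
      rw [this, zero_smul]
      exact M.zero_mem

end atomic

end Pool.Agent.Helper159
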