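import Mathlib
import Pool.Agent.Helper159.Core

set_option autoImplicit false

namespace Pool.Agent.Helper159

open scoped InnerProductSpace
open Filter Topology

section closedset

variable {H : Type*} [NormedAddCommGroup H] [InnerProductSpace ℂ H]
variable {F : Set ℝ} {w : F → H} {u : H}

/-- the subspace attached to an index -/
def nst (w : F → H) (u : H) (t : F) : Submodule ℂ H where
  carrier := {f | ∀ s : F, t ≤ s → ⟪u - w s, f⟫_ℂ = 0}
  add_mem' := by
    intro a b ha hb s hs
    rw [inner_add_right, ha s hs, hb s hs, add_zero]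
  zero_mem' := by
    intro s _
    rw [inner_zero_right]
  smul_mem' := by
    intro c a ha s hs
    rw [inner_smul_right, ha s hs, mul_zero]

lemma mem_nst {t : F} {f : H} : f ∈ nst w u t ↔ ∀ s : F, t ≤ s → ⟪u - w s, f⟫_ℂ = 0 := Iff.rfl

lemma nst_closed (t : F) : IsClosed (nst w u t : Set H) := by
  have : (nst w u t : Set H) = ⋂ s : F, ⋂ _ : t ≤ s, {f | ⟪u - w s, f⟫_ℂ = 0} := by
    ext f
    simp only [SetLike.mem_coe, mem_nst, Set.mem_iInter]
    rfl
  rw [this]
  refine isClosed_iInter fun s => isClosed_iInter fun _ => ?_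
  exact isClosed_eq (by fun_prop) continuous_const

lemma w_mem_nst (h : Incr w u) {c t : F} (hct : c ≤ t) : w c ∈ nst w u t :=
  fun _ hs => h.inner_le (hct.trans hs)

lemma nst_mono {s t : F} (hst : s ≤ t) : nst w u s ≤ nst w u t :=
  fun _ hf r hr => hf r (hst.trans hr)

lemma nst_strictMono (h : Incr w u) : StrictMono (nst w u) := by
  intro s t hst
  refine lt_of_le_of_ne (nst_mono hst.le) fun heq => ?_
  have h1 : w t ∈ nst w u s := by
    rw [heq]; exact w_mem_nst h le_rfl
  exact h.inner_lt hst (h1 s le_rfl)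

/-- a closed subspace containing `w c` for `c ≤ t` contains `nst w u t`. -/
lemma nst_le [CompleteSpace H] (h : Incr w u) (htot : ∀ g : H, (∀ t, ⟪w t, g⟫_ℂ = 0) → g = 0)
    (t : F) (M : Submodule ℂ H) (hM : IsClosed (M : Set H)) (hw : ∀ c ≤ t, w c ∈ M) :
    nst w u t ≤ M := by
  intro f hf
  let W : Submodule ℂ H := (Submodule.span ℂ (w '' Set.Iic t)).topologicalClosure
  have hWcl : IsClosed (W : Set H) := Submodule.isClosed_topologicalClosure _
  have : CompleteSpace W := hWcl.completeSpace_coe
  have hWM : W ≤ M := by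
    refine Submodule.topologicalClosure_minimal _ ?_ hM
    rw [Submodule.span_le]
    rintro _ ⟨c, hc, rfl⟩
    exact hw c hc
  have hWn : W ≤ nst w u t := by
    refine Submodule.topologicalClosure_minimal _ ?_ (nst_closed t)
    rw [Submodule.span_le]
    rintro _ ⟨c, hc, rfl⟩
    exact w_mem_nst h hc
  have hwW : ∀ c ≤ t, w c ∈ W := fun c hc =>
    Submodule.le_topologicalClosure _ (Submodule.subset_span ⟨c, hc, rfl⟩)
  obtain ⟨y, hy, z, hz, hyz⟩ := W.exists_add_mem_mem_orthogonal f
  have hzn : z ∈ nst w u t := by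
    have : z = f - y := by rw [hyz]; abel
    rw [this]
    exact (nst w u t).sub_mem hf (hWn hy)
  have hz0 : z = 0 := by
    apply htot
    have h1 : ∀ c ≤ t, ⟪w c, z⟫_ℂ = 0 := fun c hc =>
      (Submodule.mem_orthogonal _ _).1 hz _ (hwW c hc)
    have h2 : ⟪u, z⟫_ℂ = 0 := by
      have := hzn t le_rfl
      rwa [inner_sub_left, h1 t le_rfl, sub_zero] at this
    intro s
    rcases le_total s t with hs | hs
    · exact h1 s hs
    · have := hzn s hs
      rw [inner_sub_left, h2, zero_sub, neg_eq_zero] at this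
      exact this
  rw [hyz, hz0, add_zero]
  exact hWM hy

/-- **General theorem.** If a closed set `F` of reals with a largest element parametrises a
continuous total family with orthogonal increments starting at `0`, then `F` is order isomorphic
to the lattice of closed invariant subspaces of an operator. -/
theorem closed_lat [CompleteSpace H] (hF : IsClosed F) (h : Incr w u) (hw : Continuous w)
    (htot : ∀ g : H, (∀ t, ⟪w t, g⟫_ℂ = 0) → g = 0)
    (hbot : ∀ t : F, (∀ s : F, t ≤ s) → w t = 0)
    (hbd : BddBelow F) (htop : ∃ b : F, (∀ s : F, s ≤ b) ∧ u = w b) :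
    ∃ T : H →L[ℂ] H,
      Nonempty (F ≃o {M : Submodule ℂ H // IsClosed (M : Set H) ∧ ∀ x ∈ M, T x ∈ M}) := by
  obtain ⟨D, hDc, hDd⟩ := TopologicalSpace.exists_countable_dense F
  have : Countable D := hDc.to_subtype
  have hincr : Incr (fun d : D => w d) u :=
    { inj := h.inj.comp Subtype.val_injective
      incr := fun s t hst => h.incr s t hst
      top := fun s => h.top s }
  obtain ⟨T, hT, hcore⟩ := core hincr
  -- extension of the core property to all indices
  have hE : ∀ M : Submodule ℂ H, IsClosed (M : Set H) → (∀ x ∈ M, T x ∈ M) →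
      ∀ f ∈ M, ∀ c c' : F, c ≤ c' → ⟪u - w c', f⟫_ℂ ≠ 0 → w c ∈ M := by
    intro M hM hMT f hf c c' hcc hne
    have hVo : IsOpen {x : F | ⟪u - w x, f⟫_ℂ ≠ 0} :=
      isOpen_ne_fun (by fun_prop) continuous_const
    obtain ⟨O, hO, hcO, hOM⟩ : ∃ O : Set F, IsOpen O ∧ c ∈ O ∧ ∀ d ∈ D, d ∈ O → w d ∈ M := by
      rcases hcc.lt_or_eq with hlt | rfl
      · obtain ⟨m, hm1, hm2⟩ := exists_between (show (c : ℝ) < (c' : ℝ) from hlt)
        have hO2 : IsOpen ({x : F | m < (x : ℝ)} ∩ {x : F | ⟪u - w x, f⟫_ℂ ≠ 0}) :=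
          (isOpen_lt continuous_const continuous_subtype_val).inter hVo
        obtain ⟨d', hd'O, hd'D⟩ := hDd.exists_mem_open hO2 ⟨c', hm2, hne⟩
        refine ⟨{x : F | (x : ℝ) < m}, isOpen_lt continuous_subtype_val continuous_const, hm1,
          fun d hd hdO => ?_⟩
        have hlt' : (d : ℝ) < (d' : ℝ) := lt_trans hdO hd'D.1
        exact hcore M hM hMT f hf ⟨d, hd⟩ ⟨d', hd'O⟩ (show d ≤ d' from hlt'.le) hd'D.2
      · exact ⟨_, hVo, hne, fun d hd hdO => hcore M hM hMT f hf ⟨d, hd⟩ ⟨d, hd⟩ le_rfl hdO⟩
    have h1 : c ∈ closure (O ∩ D) := hDd.open_subset_closure_inter hO hcO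
    have h2 : w c ∈ closure (M : Set H) :=
      map_mem_closure hw h1 fun d hd => hOM d hd.2 hd.1
    rwa [hM.closure_eq] at h2
  obtain ⟨b, hb, hub⟩ := htop
  have hinvN : ∀ t : F, ∀ x ∈ nst w u t, T x ∈ nst w u t := by
    intro t
    refine opAlg_invariant hT _ (nst_closed t) fun c x hx => ?_
    rw [rankR_apply]
    rcases le_total t (c : F) with hc | hc
    · rw [hx c hc, zero_smul]
      exact Submodule.zero_mem _
    · exact Submodule.smul_mem _ _ (w_mem_nst h hc)
  let Φ : F → {M : Submodule ℂ H // IsClosed (M : Set H) ∧ ∀ x ∈ M, T x ∈ M} := fun t =>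
    ⟨nst w u t, nst_closed t, hinvN t⟩
  have hΦm : StrictMono Φ := fun s t hst => nst_strictMono h hst
  have hΦs : Function.Surjective Φ := by
    rintro ⟨M, hM, hMT⟩
    -- infimum of the indices whose space contains M
    let J : Set ℝ := {x | ∃ hx : x ∈ F, M ≤ nst w u ⟨x, hx⟩}
    have hbJ : (b : ℝ) ∈ J := by
      refine ⟨b.2, fun f _ s hs => ?_⟩
      have hsb : s = b := le_antisymm (hb s) hs
      rw [hsb, hub, sub_self, inner_zero_left]
    have hJF : J ⊆ F := fun x hx => hx.1
    have hJb : BddBelow J := hbd.mono hJF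
    have ht0cl : sInf J ∈ closure J := csInf_mem_closure ⟨_, hbJ⟩ hJb
    have ht0F : sInf J ∈ F := hF.closure_subset_iff.2 hJF ht0cl
    set t0 : F := ⟨sInf J, ht0F⟩ with ht0
    have hnotJ : ∀ c : F, c < t0 → ¬ M ≤ nst w u c := by
      intro c hc hle
      have : sInf J ≤ (c : ℝ) := csInf_le hJb ⟨c.2, hle⟩
      exact absurd (show (c : ℝ) < sInf J from hc) (not_lt.2 this)
    -- M is contained in nst t0
    have hMle : M ≤ nst w u t0 := by
      intro f hf s hs
      have hgt : ∀ s : F, t0 < s → ⟪u - w s, f⟫_ℂ = 0 := by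
        intro s hs
        obtain ⟨x, hxJ, hxs⟩ := exists_lt_of_csInf_lt ⟨_, hbJ⟩ (show sInf J < (s : ℝ) from hs)
        obtain ⟨hxF, hx⟩ := hxJ
        exact hx hf s (show (⟨x, hxF⟩ : F) ≤ s from hxs.le)
      rcases hs.lt_or_eq with hlt | rfl
      · exact hgt s hlt
      · by_cases hJ0 : sInf J ∈ J
        · obtain ⟨hx, hx'⟩ := hJ0
          exact hx' hf t0 le_rfl
        · -- limit from the right
          by_contra hne
          have hVo : IsOpen {x : F | ⟪u - w x, f⟫_ℂ ≠ 0} :=
            isOpen_ne_fun (by fun_prop) continuous_const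
          obtain ⟨O, hO, hOV⟩ := isOpen_induced_iff.1 hVo
          have ht0O : sInf J ∈ O := by
            have : t0 ∈ (Subtype.val ⁻¹' O : Set F) := by rw [hOV]; exact hne
            exact this
          obtain ⟨x, hxO, hxJ⟩ := mem_closure_iff.1 ht0cl O hO ht0O
          have hxF := hJF hxJ
          have hx1 : (⟨x, hxF⟩ : F) ∈ (Subtype.val ⁻¹' O : Set F) := hxO
          rw [hOV] at hx1
          apply hx1
          refine hgt _ ?_
          have hle : sInf J ≤ x := csInf_le hJb hxJ
          have hne' : sInf J ≠ x := fun heq => hJ0 (heq ▸ hxJ)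
          exact (show sInf J < x from lt_of_le_of_ne hle hne')
    -- all w c with c < t0 are in M
    have hwlt : ∀ c : F, c < t0 → w c ∈ M := by
      intro c hc
      have h1 := hnotJ c hc
      obtain ⟨f, hf, hf'⟩ := SetLike.not_le_iff_exists.1 h1
      rw [mem_nst] at hf'
      push Not at hf'
      obtain ⟨s, hcs, hs⟩ := hf'
      exact hE M hM hMT f hf c s hcs hs
    have hwt0 : w t0 ∈ M := by
      by_cases hlim : ∀ r : ℝ, r < t0 → ∃ c : F, r < c ∧ c < t0
      · -- left limit point
        have h1 : t0 ∈ closure {c : F | c < t0} := by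
          rw [mem_closure_iff]
          intro O hO htO
          obtain ⟨O', hO', rfl⟩ := isOpen_induced_iff.1 hO
          obtain ⟨ε, hε, hball⟩ := Metric.isOpen_iff.1 hO' (t0 : ℝ) htO
          obtain ⟨c, hc1, hc2⟩ := hlim ((t0 : ℝ) - ε) (by linarith)
          refine ⟨c, ?_, hc2⟩
          apply hball
          have hc2' : (c : ℝ) < (t0 : ℝ) := hc2
          rw [Metric.mem_ball, Real.dist_eq, abs_lt]
          constructor <;> linarith
        have h2 : w t0 ∈ closure (M : Set H) := map_mem_closure hw h1 fun c hc => hwlt c hc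
        rwa [hM.closure_eq] at h2
      · push Not at hlim
        obtain ⟨r, hr, hgap⟩ := hlim
        by_cases hmin : ∀ s : F, t0 ≤ s
        · rw [hbot t0 hmin]
          exact M.zero_mem
        · push Not at hmin
          obtain ⟨s0, hs0⟩ := hmin
          -- predecessor
          let G : Set ℝ := F ∩ Set.Iic r
          have hGcl : IsClosed G := hF.inter isClosed_Iic
          have hs0G : (s0 : ℝ) ∈ G := by
            refine ⟨s0.2, ?_⟩
            by_contra hcon
            exact absurd hs0 (not_lt.2 (hgap s0 (not_le.1 hcon)))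
          have hGb : BddAbove G := ⟨r, fun x hx => hx.2⟩
          have ht1 : sSup G ∈ G := hGcl.csSup_mem ⟨_, hs0G⟩ hGb
          set t1 : F := ⟨sSup G, ht1.1⟩ with ht1def
          have ht1r : (t1 : ℝ) ≤ r := ht1.2
          have ht10 : t1 < t0 := show (t1 : ℝ) < (t0 : ℝ) from ht1r.trans_lt hr
          have hpred : ∀ c : F, c < t0 → c ≤ t1 := by
            intro c hc
            have hcr : (c : ℝ) ≤ r := by
              by_contra hcon
              exact absurd hc (not_lt.2 (hgap c (not_le.1 hcon)))
            exact (le_csSup hGb ⟨c.2, hcr⟩ : (c : ℝ) ≤ sSup G)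
          have hN1 : nst w u t1 ≤ M :=
            nst_le h htot t1 M hM fun c hc => hwlt c (hc.trans_lt ht10)
          obtain ⟨f, hf, hf'⟩ := SetLike.not_le_iff_exists.1 (hnotJ t1 ht10)
          -- e := w t0 - w t1
          set e : H := w t0 - w t1 with he
          have he0 : e ≠ 0 := by
            rw [he, sub_ne_zero]
            exact fun heq => ht10.ne' (h.inj heq)
          have hee : ⟪e, e⟫_ℂ ≠ 0 := by
            rwa [Ne, inner_self_eq_zero]
          set a : ℂ := ⟪e, f⟫_ℂ / ⟪e, e⟫_ℂ with ha
          have hf1 : f - a • e ∈ nst w u t1 := by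
            intro s hs
            rcases hs.lt_or_eq with hlt | rfl
            · have hs0' : t0 ≤ s := by
                by_contra hcon
                exact absurd (hpred s (not_le.1 hcon)) (not_le.2 hlt)
              rw [inner_sub_right, hMle hf s hs0', inner_smul_right, he, inner_sub_right,
                h.inner_le hs0', h.inner_le (ht10.le.trans hs0')]
              simp
            · have h3 : u - w t1 = (u - w t0) + e := by rw [he]; abel
              rw [h3, inner_add_left, inner_sub_right, inner_sub_right, hMle hf t0 le_rfl,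
                inner_smul_right, inner_smul_right]
              have h4 : ⟪u - w t0, e⟫_ℂ = 0 := by
                rw [he, inner_sub_right, h.inner_le le_rfl, h.inner_le ht10.le, sub_zero]
              rw [h4, ha, div_mul_cancel₀ _ hee]
              simp
          have ha0 : a ≠ 0 := by
            intro h0
            rw [h0, zero_smul, sub_zero] at hf1
            exact hf' hf1
          have hae : a • e ∈ M := by
            have := M.sub_mem hf (hN1 hf1)
            rwa [sub_sub_cancel] at this
          have heM : e ∈ M := (M.smul_mem_iff ha0).1 hae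
          have : w t0 = e + w t1 := by rw [he]; abel
          rw [this]
          exact M.add_mem heM (hwlt t1 ht10)
    refine ⟨t0, Subtype.ext (le_antisymm ?_ hMle)⟩
    refine nst_le h htot t0 M hM fun c hc => ?_
    rcases hc.lt_or_eq with hlt | rfl
    · exact hwlt c hlt
    · exact hwt0
  exact ⟨T, ⟨StrictMono.orderIsoOfSurjective Φ hΦm hΦs⟩⟩

end closedset

section model

open MeasureTheory

variable {H : Type*} [NormedAddCommGroup H] [InnerProductSpace ℂ H]

/-- the general theorem in terms of a Gram matrix. -/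
theorem closed_lat' [CompleteSpace H] {F : Set ℝ} (hne : F.Nonempty) (hF : IsCompact F)
    (w : F → H) (hin : ∀ s t : F, s ≤ t → ⟪w s, w t⟫_ℂ = (((s : ℝ) - sInf F : ℝ) : ℂ))
    (htot : ∀ g : H, (∀ t, ⟪w t, g⟫_ℂ = 0) → g = 0) :
    ∃ T : H →L[ℂ] H,
      Nonempty (F ≃o {M : Submodule ℂ H // IsClosed (M : Set H) ∧ ∀ x ∈ M, T x ∈ M}) := by
  have hFcl := hF.isClosed
  have haF : sInf F ∈ F := hF.sInf_mem hne
  have hbF : sSup F ∈ F := hF.sSup_mem hne
  have hale : ∀ x ∈ F, sInf F ≤ x := fun x hx => csInf_le hF.bddBelow hx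
  have hble : ∀ x ∈ F, x ≤ sSup F := fun x hx => le_csSup hF.bddAbove hx
  have hdist : ∀ s t : F, s ≤ t → ‖w t - w s‖ ^ 2 = (t : ℝ) - s := by
    intro s t hst
    have h1 : (((‖w t - w s‖ ^ 2 : ℝ)) : ℂ) = (((t : ℝ) - s : ℝ) : ℂ) := by
      have h2 := inner_self_eq_norm_sq_to_K (𝕜 := ℂ) (w t - w s)
      have h3 : ⟪w t, w s⟫_ℂ = (((s : ℝ) - sInf F : ℝ) : ℂ) := by
        rw [← inner_conj_symm, hin s t hst, Complex.conj_ofReal]
      rw [inner_sub_left, inner_sub_right, inner_sub_right, hin t t le_rfl, hin s t hst, h3,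
        hin s s le_rfl] at h2
      have h4 : ((‖w t - w s‖ ^ 2 : ℝ) : ℂ) = (RCLike.ofReal ‖w t - w s‖ : ℂ) ^ 2 := by
        push_cast; rfl
      rw [h4, ← h2]
      push_cast
      ring
    exact_mod_cast h1
  have hincr : Incr w (w ⟨sSup F, hbF⟩) :=
    { inj := by
        intro s t hst
        rcases le_total s t with hle | hle
        · have := hdist s t hle
          rw [hst, sub_self, norm_zero] at this
          apply Subtype.ext
          linarith [this]
        · have := hdist t s hle
          rw [hst, sub_self, norm_zero] at this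
          apply Subtype.ext
          linarith [this]
      incr := fun s t hst => by rw [hin s t hst, hin s s le_rfl]
      top := fun s => by
        rw [hin s ⟨sSup F, hbF⟩ (hble s s.2), hin s s le_rfl] }
  have hcont : Continuous w := by
    rw [Metric.continuous_iff]
    intro t ε hε
    refine ⟨ε ^ 2, by positivity, fun s hs => ?_⟩
    have hs' : |(s : ℝ) - t| < ε ^ 2 := hs
    have key : ‖w s - w t‖ ^ 2 < ε ^ 2 := by
      rcases le_total s t with hle | hle
      · rw [norm_sub_rev, hdist s t hle]
        rw [abs_lt] at hs'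
        linarith
      · rw [hdist t s hle]
        rw [abs_lt] at hs'
        linarith
    rw [dist_eq_norm]
    exact lt_of_pow_lt_pow_left₀ 2 hε.le key
  have hbot : ∀ t : F, (∀ s : F, t ≤ s) → w t = 0 := by
    intro t ht
    have hta : (t : ℝ) = sInf F := le_antisymm (ht ⟨_, haF⟩) (hale t t.2)
    have h1 := hin t t le_rfl
    rw [hta, sub_self, Complex.ofReal_zero, inner_self_eq_zero] at h1
    exact h1
  exact closed_lat (w := w) (u := w ⟨sSup F, hbF⟩) hFcl hincr hcont htot hbot
    hF.bddBelow ⟨⟨sSup F, hbF⟩, fun s => hble s s.2, rfl⟩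

/-- indicator of `(a, t]` in `L²(ℝ)` -/
noncomputable def ind (a t : ℝ) : Lp ℂ 2 (volume : Measure ℝ) :=
  indicatorConstLp 2 (measurableSet_Ioc (a := a) (b := t))
    (by rw [Real.volume_Ioc]; exact ENNReal.ofReal_ne_top) (1 : ℂ)

lemma inner_ind (a s t : ℝ) (has : a ≤ s) (hst : s ≤ t) :
    ⟪ind a s, ind a t⟫_ℂ = ((s - a : ℝ) : ℂ) := by
  unfold ind
  rw [L2.inner_indicatorConstLp_one_indicatorConstLp_one measurableSet_Ioc measurableSet_Ioc
    (by rw [Real.volume_Ioc]; exact ENNReal.ofReal_ne_top)
    (by rw [Real.volume_Ioc]; exact ENNReal.ofReal_ne_top)]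
  rw [Set.Ioc_inter_Ioc, max_self, min_eq_left hst, Measure.real, Real.volume_Ioc,
    ENNReal.toReal_ofReal (by linarith)]
  rfl

/-- **Every nonempty compact set of reals is order isomorphic to the lattice of closed invariant
subspaces of a bounded operator on a separable complex Hilbert space.** -/
theorem compact_attainable (F : Set ℝ) (hne : F.Nonempty) (hF : IsCompact F) :
    ∃ (H : Type) (_ : NormedAddCommGroup H) (_ : InnerProductSpace ℂ H) (_ : CompleteSpace H)
      (_ : TopologicalSpace.SeparableSpace H) (T : H →L[ℂ] H),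
      Nonempty (F ≃o {M : Submodule ℂ H // IsClosed (M : Set H) ∧ ∀ x ∈ M, T x ∈ M}) := by
  set a := sInf F with ha
  have hale : ∀ x ∈ F, a ≤ x := fun x hx => csInf_le hF.bddBelow hx
  let K : Submodule ℂ (Lp ℂ 2 (volume : Measure ℝ)) :=
    (Submodule.span ℂ (Set.range fun t : F => ind a t)).topologicalClosure
  have hKcl : IsClosed (K : Set (Lp ℂ 2 (volume : Measure ℝ))) :=
    Submodule.isClosed_topologicalClosure _
  have hKc : CompleteSpace K := hKcl.completeSpace_coe
  have hmem : ∀ t : F, ind a t ∈ K := fun t =>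
    Submodule.le_topologicalClosure _ (Submodule.subset_span ⟨t, rfl⟩)
  let w : F → K := fun t => ⟨ind a t, hmem t⟩
  obtain ⟨T, hT⟩ := closed_lat' (H := K) hne hF w
    (fun s t hst => by
      rw [Submodule.coe_inner]
      exact inner_ind a s t (hale s s.2) hst)
    (fun g hg => by
      have h1 : (g : Lp ℂ 2 (volume : Measure ℝ)) ∈
          (Submodule.span ℂ (Set.range fun t : F => ind a t))ᗮ := by
        rw [Submodule.mem_orthogonal]
        intro x hx
        induction hx using Submodule.span_induction with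
        | mem x hx =>
          obtain ⟨t, rfl⟩ := hx
          have := hg t
          rwa [Submodule.coe_inner] at this
        | zero => exact inner_zero_left _
        | add x y _ _ hx hy => rw [inner_add_left, hx, hy, add_zero]
        | smul c x _ hx => rw [inner_smul_left, hx, mul_zero]
      rw [← Submodule.orthogonal_closure] at h1
      have h2 : ⟪(g : Lp ℂ 2 (volume : Measure ℝ)), (g : Lp ℂ 2 (volume : Measure ℝ))⟫_ℂ = 0 :=
        (Submodule.mem_orthogonal _ _).1 h1 _ g.2
      rw [inner_self_eq_zero] at h2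
      exact Subtype.ext h2)
  have : Fact ((2 : ENNReal) ≠ ⊤) := ⟨by norm_num⟩
  exact ⟨K, inferInstance, inferInstance, hKc, inferInstance, T, hT⟩

end model

end Pool.Agent.Helper159
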