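import Mathlib

open scoped InnerProduct
open ContinuousLinearMap

namespace Pool.Agent.Helper159.Csl

variable {H : Type*} [NormedAddCommGroup H] [InnerProductSpace ℂ H] [CompleteSpace H]

/-- Two self-adjoint operators in the commutant of a commutative self-adjoint family with a
cyclic vector commute. -/
theorem commute_of_cyclic (D : Set (H →L[ℂ] H)) (hc : ∀ A ∈ D, ∀ B ∈ D, A * B = B * A)
    (hs : ∀ A ∈ D, star A ∈ D) (Ω : H)
    (hΩ : Dense ((fun A : H →L[ℂ] H => A Ω) '' (Set.centralizer (Set.centralizer D))))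
    {P P' : H →L[ℂ] H} (hP : P ∈ Set.centralizer D) (hP' : P' ∈ Set.centralizer D)
    (hPs : star P = P) (hPs' : star P' = P') : P * P' = P' * P := by
  set 𝒜 := Set.centralizer (Set.centralizer D) with h𝒜
  have hcomm : ∀ A ∈ 𝒜, ∀ B ∈ Set.centralizer D, A * B = B * A := fun A hA B hB =>
    (hA B hB).symm
  have hDc : D ⊆ Set.centralizer D := fun A hA B hB => hc B hB A hA
  have h𝒜D : 𝒜 ⊆ Set.centralizer D := Set.centralizer_subset hDc
  have hstar : ∀ A ∈ 𝒜, star A ∈ 𝒜 := by
    intro A hA B hB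
    have hB' : star B ∈ Set.centralizer D := by
      intro C hC
      have := hB (star C) (hs C hC)
      have := congrArg star this
      simpa [star_mul] using this.symm
    have := hA (star B) hB'
    have := congrArg star this
    simpa [star_mul] using this.symm
  have hadj : ∀ (A : H →L[ℂ] H) (x y : H), inner ℂ (A x) y = inner ℂ x ((star A) y) := by
    intro A x y
    rw [ContinuousLinearMap.star_eq_adjoint, ContinuousLinearMap.adjoint_inner_right]
  -- normality
  have hnorm : ∀ (P : H →L[ℂ] H), P ∈ Set.centralizer D → star P = P → ∀ A ∈ 𝒜,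
      ‖(star A) Ω - P Ω‖ = ‖A Ω - P Ω‖ := by
    intro P hP hPs A hA
    have h1 : star (A - P) * (A - P) = (A - P) * star (A - P) := by
      have e1 : A * P = P * A := hcomm A hA P hP
      have e2 : star A * P = P * star A := hcomm _ (hstar A hA) P hP
      have e3 : A * star A = star A * A := hcomm A hA _ (h𝒜D (hstar A hA))
      rw [star_sub, hPs]
      simp only [mul_sub, sub_mul, e1, e2, e3]
      abel
    have h2 : ∀ B : H →L[ℂ] H, ‖B Ω‖ ^ 2 = RCLike.re (inner ℂ ((star B * B) Ω) Ω) := by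
      intro B
      change _ = RCLike.re (inner ℂ ((star B) (B Ω)) Ω)
      rw [hadj, star_star, ← inner_self_eq_norm_sq (𝕜 := ℂ)]
    have h3 : ‖(A - P) Ω‖ ^ 2 = ‖(star (A - P)) Ω‖ ^ 2 := by
      rw [h2, h2, star_star, h1]
    have h4 : ‖(A - P) Ω‖ = ‖(star (A - P)) Ω‖ :=
      (sq_eq_sq₀ (norm_nonneg _) (norm_nonneg _)).1 h3
    rw [star_sub, hPs] at h4
    simpa using h4.symm
  -- approximating sequences
  have happ : ∀ (P : H →L[ℂ] H), P ∈ Set.centralizer D → star P = P →
      ∃ A : ℕ → (H →L[ℂ] H), (∀ n, A n ∈ 𝒜) ∧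
        Filter.Tendsto (fun n => A n Ω) Filter.atTop (nhds (P Ω)) ∧
        Filter.Tendsto (fun n => (star (A n)) Ω) Filter.atTop (nhds (P Ω)) := by
    intro P hP hPs
    have h1 : ∀ n : ℕ, ∃ A ∈ 𝒜, dist (P Ω) (A Ω) < 1 / ((n : ℝ) + 1) := by
      intro n
      obtain ⟨_, ⟨A, hA, rfl⟩, h⟩ := hΩ.exists_dist_lt (P Ω) (ε := 1 / ((n : ℝ) + 1))
        (by positivity)
      exact ⟨A, hA, h⟩
    choose A hA hd using h1
    refine ⟨A, hA, ?_, ?_⟩
    · rw [tendsto_iff_dist_tendsto_zero]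
      refine squeeze_zero (fun _ => dist_nonneg) (fun n => ?_) tendsto_one_div_add_atTop_nhds_zero_nat
      rw [dist_comm]; exact (hd n).le
    · rw [tendsto_iff_dist_tendsto_zero]
      refine squeeze_zero (fun _ => dist_nonneg) (fun n => ?_) tendsto_one_div_add_atTop_nhds_zero_nat
      rw [dist_eq_norm, hnorm P hP hPs _ (hA n), ← dist_eq_norm, dist_comm]
      exact (hd n).le
  -- the key identity on `Ω`
  have key : ∀ C ∈ 𝒜, inner ℂ (P (P' Ω)) (C Ω) = inner ℂ (P' (P Ω)) (C Ω) := by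
    intro C hC
    obtain ⟨A, hA, hA1, hA2⟩ := happ P hP hPs
    obtain ⟨A', hA', hA1', hA2'⟩ := happ P' hP' hPs'
    have e1 : Filter.Tendsto (fun n => inner ℂ (A' n Ω) (C (A n Ω))) Filter.atTop
        (nhds (inner ℂ (P' Ω) (C (P Ω)))) :=
      hA1'.inner ((C.continuous.tendsto _).comp hA1)
    have e2 : Filter.Tendsto (fun n => inner ℂ ((star (A n)) Ω) (C ((star (A' n)) Ω))) Filter.atTop
        (nhds (inner ℂ (P Ω) (C (P' Ω)))) :=
      hA2.inner ((C.continuous.tendsto _).comp hA2')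
    have e3 : ∀ n, inner ℂ (A' n Ω) (C (A n Ω)) =
        inner ℂ ((star (A n)) Ω) (C ((star (A' n)) Ω)) := by
      intro n
      have c1 : C * A n = A n * C := hcomm C hC _ (h𝒜D (hA n))
      have c2 : star (A n) * A' n = A' n * star (A n) :=
        hcomm _ (hstar _ (hA n)) _ (h𝒜D (hA' n))
      have c3 : C * star (A' n) = star (A' n) * C := hcomm C hC _ (h𝒜D (hstar _ (hA' n)))
      have d1 : C (A n Ω) = A n (C Ω) := congrArg (fun B : H →L[ℂ] H => B Ω) c1
      have d2 : (star (A n)) (A' n Ω) = A' n ((star (A n)) Ω) :=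
        congrArg (fun B : H →L[ℂ] H => B Ω) c2
      have d3 : C ((star (A' n)) Ω) = (star (A' n)) (C Ω) :=
        congrArg (fun B : H →L[ℂ] H => B Ω) c3
      rw [d1, d3, ← hadj, ← d2]
      have := hadj (star (A n)) (A' n Ω) (C Ω)
      rw [star_star] at this
      rw [this]
    have e4 : inner ℂ (P' Ω) (C (P Ω)) = inner ℂ (P Ω) (C (P' Ω)) := by
      refine tendsto_nhds_unique e1 ?_
      simpa only [e3] using e2
    have f1 : C (P Ω) = P (C Ω) := congrArg (fun B : H →L[ℂ] H => B Ω) (hcomm C hC P hP)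
    have f2 : C (P' Ω) = P' (C Ω) := congrArg (fun B : H →L[ℂ] H => B Ω) (hcomm C hC P' hP')
    rw [f1, f2] at e4
    rw [hadj P (P' Ω), hPs, hadj P' (P Ω), hPs']
    exact e4
  have hden : Dense ((fun A : H →L[ℂ] H => A Ω) '' 𝒜) := hΩ
  have h0 : P (P' Ω) = P' (P Ω) := by
    refine hden.eq_of_inner_left (𝕜 := ℂ) ?_
    rintro _ ⟨C, hC, rfl⟩
    exact key C hC
  have hcont : (fun x => (P * P') x) = fun x => (P' * P) x := by
    refine Continuous.ext_on hden (P * P').continuous (P' * P).continuous ?_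
    rintro _ ⟨C, hC, rfl⟩
    have f1 : ∀ x, C (P x) = P (C x) := fun x =>
      congrArg (fun B : H →L[ℂ] H => B x) (hcomm C hC P hP)
    have f2 : ∀ x, C (P' x) = P' (C x) := fun x =>
      congrArg (fun B : H →L[ℂ] H => B x) (hcomm C hC P' hP')
    change P (P' (C Ω)) = P' (P (C Ω))
    rw [← f2, ← f1, ← f1, ← f2, h0]
  ext x
  exact congrFun hcont x

end Pool.Agent.Helper159.Csl
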