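import Mathlib
import Pool.Agent.Helper159.CslCyclic

open scoped InnerProduct
open ContinuousLinearMap

namespace Pool.Agent.Helper159.Csl

variable {H : Type*} [NormedAddCommGroup H] [InnerProductSpace ℂ H] [CompleteSpace H]

/-- A commutative subspace lattice: a family of closed subspaces whose orthogonal projections
commute pairwise, containing `0` and `H`, closed under arbitrary intersections and under
arbitrary closed linear spans. -/
structure IsCSL (L : Set (ClosedSubmodule ℂ H)) : Prop where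
  bot_mem : ⊥ ∈ L
  top_mem : ⊤ ∈ L
  sInf_mem : ∀ S ⊆ L, sInf S ∈ L
  sSup_mem : ∀ S ⊆ L, sSup S ∈ L
  commute : ∀ M ∈ L, ∀ N ∈ L,
    M.toSubmodule.starProjection * N.toSubmodule.starProjection =
      N.toSubmodule.starProjection * M.toSubmodule.starProjection

/-- `Alg L`: the bounded operators leaving every member of `L` invariant. -/
def Alg (L : Set (ClosedSubmodule ℂ H)) : Set (H →L[ℂ] H) :=
  {A | ∀ M ∈ L, ∀ x ∈ M, A x ∈ M}

/-- Complete distributivity: `⋀ᵢ ⋁ Sᵢ = ⋁_f ⋀ᵢ f i` for all families `(Sᵢ)` of subsets of `L`,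
where `f` runs over the choice functions of the family. -/
def IsCompletelyDistributive (L : Set (ClosedSubmodule ℂ H)) : Prop :=
  ∀ (ι : Type) (S : ι → Set (ClosedSubmodule ℂ H)), (∀ i, S i ⊆ L) →
    ⨅ i, sSup (S i) = ⨆ f : {f : ι → ClosedSubmodule ℂ H // ∀ i, f i ∈ S i}, ⨅ i, f.1 i

/-- The weak* topology on the bounded operators, as the dual of the trace class operators: the
coarsest topology for which all functionals `A ↦ ∑ₙ ⟪yₙ, A xₙ⟫` with `∑ ‖xₙ‖² < ∞` and
`∑ ‖yₙ‖² < ∞` are continuous. -/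
@[instance_reducible] noncomputable def weakStar (H : Type*) [NormedAddCommGroup H] [InnerProductSpace ℂ H] :
    TopologicalSpace (H →L[ℂ] H) :=
  ⨅ p : {p : (ℕ → H) × (ℕ → H) //
      (Summable fun n => ‖p.1 n‖ ^ 2) ∧ Summable fun n => ‖p.2 n‖ ^ 2},
    TopologicalSpace.induced (fun A : H →L[ℂ] H => ∑' n, inner ℂ (p.1.2 n) (A (p.1.1 n)))
      inferInstance

/-- The compact operators in `Alg L` are weak* dense in `Alg L`. -/
def CompactsWeakStarDense (L : Set (ClosedSubmodule ℂ H)) : Prop :=
  Alg L ⊆ @closure _ (weakStar H) {A | A ∈ Alg L ∧ IsCompactOperator A}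

/-- Closed subspaces invariant under all members of `T`. -/
def LatS (T : Set (H →L[ℂ] H)) : Set (ClosedSubmodule ℂ H) :=
  {M | ∀ A ∈ T, ∀ x ∈ M, A x ∈ M}

omit [CompleteSpace H] in
lemma subset_alg_latS (T : Set (H →L[ℂ] H)) : T ⊆ Alg (LatS T) :=
  fun A hA _ hM x hx => hM A hA x hx

omit [CompleteSpace H] in
lemma sInf_mem_latS (T : Set (H →L[ℂ] H)) (S : Set (ClosedSubmodule ℂ H)) (hS : S ⊆ LatS T) :
    sInf S ∈ LatS T := by
  intro A hA x hx
  rw [ClosedSubmodule.mem_sInf] at hx ⊢
  exact fun M hM => hS hM A hA x (hx M hM)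

omit [CompleteSpace H] in
lemma sSup_mem_latS (T : Set (H →L[ℂ] H)) (S : Set (ClosedSubmodule ℂ H)) (hS : S ⊆ LatS T) :
    sSup S ∈ LatS T := by
  intro A hA x hx
  have h : sSup S ≤ (sSup S).comap A := by
    refine sSup_le fun M hM => ?_
    intro y hy
    rw [ClosedSubmodule.mem_comap]
    exact (le_sSup hM) (hS hM A hA y hy)
  exact h hx

/-- A closed subspace invariant under a self-adjoint family: its projection commutes with it. -/
lemma proj_mem_centralizer (D : Set (H →L[ℂ] H)) (hs : ∀ A ∈ D, star A ∈ D)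
    (M : ClosedSubmodule ℂ H) (hM : M ∈ LatS D) :
    M.toSubmodule.starProjection ∈ Set.centralizer D := by
  intro A hA
  ext x
  change A (M.toSubmodule.starProjection x) = M.toSubmodule.starProjection (A x)
  have h1 : ∀ y ∈ M.toSubmodule, A y ∈ M.toSubmodule := fun y hy => hM A hA y hy
  have h2 : ∀ y ∈ M.toSubmoduleᗮ, A y ∈ M.toSubmoduleᗮ := by
    intro y hy
    rw [Submodule.mem_orthogonal] at hy ⊢
    intro u hu
    have h3 := hy ((star A) u) (hM (star A) (hs A hA) u hu)
    rw [ContinuousLinearMap.star_eq_adjoint, ContinuousLinearMap.adjoint_inner_left] at h3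
    exact h3
  have hp1 : M.toSubmodule.starProjection x ∈ M.toSubmodule :=
    Submodule.starProjection_apply_mem _ x
  have hp2 : x - M.toSubmodule.starProjection x ∈ M.toSubmoduleᗮ :=
    Submodule.sub_starProjection_mem_orthogonal x
  have e1 : A x = A (M.toSubmodule.starProjection x) +
      A (x - M.toSubmodule.starProjection x) := by
    rw [← map_add]; congr 1; abel
  conv_rhs => rw [e1, map_add, Submodule.starProjection_eq_self_iff.2 (h1 _ hp1),
    (Submodule.starProjection_apply_eq_zero_iff _).2 (h2 _ hp2), add_zero]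

/-- The invariant subspace lattice of a family that contains a commutative self-adjoint family
with a cyclic vector is a commutative subspace lattice. -/
theorem isCSL_latS (D T : Set (H →L[ℂ] H)) (hDT : D ⊆ T) (hc : ∀ A ∈ D, ∀ B ∈ D, A * B = B * A)
    (hs : ∀ A ∈ D, star A ∈ D) (Ω : H)
    (hΩ : Dense ((fun A : H →L[ℂ] H => A Ω) '' (Set.centralizer (Set.centralizer D)))) :
    IsCSL (LatS T) where
  bot_mem := by
    intro A _ x hx
    have h0 : x = 0 := hx
    rw [h0, map_zero]
    exact (⊥ : ClosedSubmodule ℂ H).zero_mem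
  top_mem := fun A _ x _ => trivial
  sInf_mem := sInf_mem_latS T
  sSup_mem := sSup_mem_latS T
  commute := by
    intro M hM N hN
    refine commute_of_cyclic D hc hs Ω hΩ
      (proj_mem_centralizer D hs M fun A hA => hM A (hDT hA))
      (proj_mem_centralizer D hs N fun A hA => hN A (hDT hA)) ?_ ?_
    · exact isSelfAdjoint_starProjection _
    · exact isSelfAdjoint_starProjection _

/-- If `Alg L` contains a bounded sequence of compact operators converging strongly to the
identity, then its compact operators are weak* dense. -/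
theorem compactsWeakStarDense_of_seq (L : Set (ClosedSubmodule ℂ H)) (K : ℕ → (H →L[ℂ] H))
    (hK : ∀ n, K n ∈ Alg L) (hKc : ∀ n, IsCompactOperator (K n)) (C : ℝ) (hC : ∀ n, ‖K n‖ ≤ C)
    (hlim : ∀ x, Filter.Tendsto (fun n => K n x) Filter.atTop (nhds x)) :
    CompactsWeakStarDense L := by
  intro A hA
  let _ : TopologicalSpace (H →L[ℂ] H) := weakStar H
  have htend : Filter.Tendsto (fun n => A * K n) Filter.atTop (@nhds _ (weakStar H) A) := by
    rw [weakStar, nhds_iInf, Filter.tendsto_iInf]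
    rintro ⟨⟨x, y⟩, hx, hy⟩
    rw [nhds_induced, Filter.tendsto_comap_iff]
    simp only [Function.comp_def]
    simp only at hx hy
    refine tendsto_tsum_of_dominated_convergence
      (bound := fun n => (‖A‖ * C) * (‖x n‖ ^ 2 + ‖y n‖ ^ 2)) ?_ ?_ ?_
    · exact (hx.add hy).mul_left _
    · intro k
      refine Filter.Tendsto.inner tendsto_const_nhds ?_
      exact (A.continuous.tendsto _).comp (hlim (x k))
    · refine Filter.Eventually.of_forall fun n k => ?_
      have h1 : ‖(A * K n) (x k)‖ ≤ ‖A‖ * C * ‖x k‖ := by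
        calc ‖A (K n (x k))‖ ≤ ‖A‖ * ‖K n (x k)‖ := A.le_opNorm _
          _ ≤ ‖A‖ * (‖K n‖ * ‖x k‖) :=
              mul_le_mul_of_nonneg_left ((K n).le_opNorm _) (norm_nonneg _)
          _ ≤ ‖A‖ * (C * ‖x k‖) := by
              have := hC n
              gcongr
          _ = _ := by ring
      have hC0 : 0 ≤ C := (norm_nonneg _).trans (hC 0)
      calc ‖inner ℂ (y k) ((A * K n) (x k))‖ ≤ ‖y k‖ * ‖(A * K n) (x k)‖ :=
            norm_inner_le_norm _ _
        _ ≤ ‖y k‖ * (‖A‖ * C * ‖x k‖) := by gcongr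
        _ = (‖A‖ * C) * (‖x k‖ * ‖y k‖) := by ring
        _ ≤ (‖A‖ * C) * (‖x k‖ ^ 2 + ‖y k‖ ^ 2) := by
            have : ‖x k‖ * ‖y k‖ ≤ ‖x k‖ ^ 2 + ‖y k‖ ^ 2 := by
              nlinarith [sq_nonneg (‖x k‖ - ‖y k‖), sq_nonneg (‖x k‖), sq_nonneg (‖y k‖)]
            gcongr
  refine mem_closure_of_tendsto htend (Filter.Eventually.of_forall fun n => ?_)
  refine ⟨fun M hM x hx => hA M hM _ (hK n M hM x hx), ?_⟩
  exact (hKc n).clm_comp A

end Pool.Agent.Helper159.Csl
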