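import Mathlib

open scoped InnerProduct ENNReal
open MeasureTheory ContinuousLinearMap

namespace Pool.Agent.Helper159.Csl

/-- `L²[0,1]`. -/
noncomputable abbrev E := Lp ℂ 2 (volume : Measure unitInterval)

/-- multiplication by a continuous function. -/
noncomputable def m : C(unitInterval, ℂ) →L[ℂ] E →L[ℂ] E :=
  ((ContinuousLinearMap.mul ℂ ℂ).holderL volume ∞ 2 2) ∘L (ContinuousMap.toLp ∞ volume ℂ)

lemma m_coe (φ : C(unitInterval, ℂ)) (f : E) : m φ f =ᵐ[volume] fun t => φ t * f t := by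
  have h1 := (ContinuousLinearMap.mul ℂ ℂ).coeFn_holder (r := 2)
    (ContinuousMap.toLp ∞ (volume : Measure unitInterval) ℂ φ) f
  have h2 := ContinuousMap.coeFn_toLp (p := ∞) (𝕜 := ℂ) (volume : Measure unitInterval) φ
  filter_upwards [h1, h2] with t h1 h2
  have h3 : (m φ f) t = ((ContinuousLinearMap.mul ℂ ℂ).holder 2
    (ContinuousMap.toLp ∞ (volume : Measure unitInterval) ℂ φ) f) t := rfl
  rw [h3, h1, h2]
  rfl

lemma m_mul (φ ψ : C(unitInterval, ℂ)) (f : E) : m (φ * ψ) f = m φ (m ψ f) := by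
  refine Lp.ext ?_
  filter_upwards [m_coe (φ * ψ) f, m_coe φ (m ψ f), m_coe ψ f] with t h1 h2 h3
  rw [h1, h2, h3, ContinuousMap.mul_apply, mul_assoc]

lemma m_one (f : E) : m 1 f = f := by
  refine Lp.ext ?_
  filter_upwards [m_coe 1 f] with t h1
  rw [h1, ContinuousMap.one_apply, one_mul]

lemma m_inner (φ : C(unitInterval, ℂ)) (f g : E) :
    inner ℂ (m φ f) g = inner ℂ f (m (star φ) g) := by
  rw [L2.inner_def, L2.inner_def]
  refine integral_congr_ae ?_
  filter_upwards [m_coe φ f, m_coe (star φ) g] with t h1 h2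
  rw [h1, h2]
  simp only [RCLike.inner_apply, map_mul, ContinuousMap.star_apply, RCLike.star_def]
  ring

lemma m_star (φ : C(unitInterval, ℂ)) : star (m φ) = m (star φ) := by
  rw [ContinuousLinearMap.star_eq_adjoint]
  symm
  rw [ContinuousLinearMap.eq_adjoint_iff]
  intro f g
  rw [m_inner, star_star]

/-- the constant function one. -/
noncomputable def one : E := ContinuousMap.toLp 2 volume ℂ (1 : C(unitInterval, ℂ))

lemma m_one_fun (φ : C(unitInterval, ℂ)) : m φ one = ContinuousMap.toLp 2 volume ℂ φ := by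
  refine Lp.ext ?_
  filter_upwards [m_coe φ one, ContinuousMap.coeFn_toLp (p := 2) (𝕜 := ℂ) volume φ,
    ContinuousMap.coeFn_toLp (p := 2) (𝕜 := ℂ) volume (1 : C(unitInterval, ℂ))] with t h1 h2 h3
  rw [h1, h2]
  unfold one
  rw [h3, ContinuousMap.one_apply, mul_one]

lemma dense_m_one : DenseRange (fun φ : C(unitInterval, ℂ) => m φ one) := by
  simp only [m_one_fun]
  exact ContinuousMap.toLp_denseRange ℂ (volume : Measure unitInterval) ℂ (by norm_num)

/-- the indicator of a measurable set. -/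
noncomputable def ind (S : Set unitInterval) (hS : MeasurableSet S) : E :=
  indicatorConstLp 2 hS (measure_ne_top volume S) (1 : ℂ)

lemma ind_coe (S : Set unitInterval) (hS : MeasurableSet S) :
    ind S hS =ᵐ[volume] S.indicator fun _ => (1 : ℂ) := indicatorConstLp_coeFn

lemma norm_m_ind_le (S : Set unitInterval) (hS : MeasurableSet S) (φ : C(unitInterval, ℂ))
    (B : ℝ) (hB : ∀ t ∈ S, ‖φ t‖ ≤ B) : ‖m φ (ind S hS)‖ ≤ B * ‖ind S hS‖ := by
  refine Lp.norm_le_mul_norm_of_ae_le_mul ?_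
  filter_upwards [m_coe φ (ind S hS), ind_coe S hS] with t h1 h2
  rw [h1, norm_mul, h2]
  by_cases ht : t ∈ S
  · exact mul_le_mul_of_nonneg_right (hB t ht) (norm_nonneg _)
  · simp [ht]

lemma inner_m_ind_disjoint (S S' : Set unitInterval) (hS : MeasurableSet S)
    (hS' : MeasurableSet S') (hd : Disjoint S S') (φ ψ : C(unitInterval, ℂ)) :
    inner ℂ (m φ (ind S hS)) (m ψ (ind S' hS')) = 0 := by
  rw [L2.inner_def]
  refine integral_eq_zero_of_ae ?_
  filter_upwards [m_coe φ (ind S hS), ind_coe S hS, m_coe ψ (ind S' hS'), ind_coe S' hS']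
    with t h1 h2 h3 h4
  rw [h1, h2, h3, h4]
  by_cases ht : t ∈ S
  · have : t ∉ S' := Set.disjoint_left.1 hd ht
    simp [this]
  · simp [ht]

lemma norm_ind (S : Set unitInterval) (hS : MeasurableSet S) :
    ‖ind S hS‖ ^ 2 = (volume S).toReal := by
  unfold ind
  rw [norm_indicatorConstLp (by norm_num) (by norm_num)]
  simp only [norm_one, one_mul, ENNReal.toReal_ofNat, one_div]
  rw [← Real.rpow_natCast, ← Real.rpow_mul measureReal_nonneg]
  simp [Measure.real]

end Pool.Agent.Helper159.Csl
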